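import Pool.Agent.BCS.Stmts3
import Pool.Agent.Helper17_BCS.CNS

/-!
# Row CNF of squad BCS (MP_fb4904_gt): conformal change of the scalar curvature
-/

noncomputable section

open scoped ContDiff Topology
open Set

namespace Pool.Agent.BCS.H88

open Pool.Agent.BCS
open Pool.Agent.SecondKind (Coord pd inv christoffel ricci curv)
open Pool.Agent.BCS.H17 (smooth_pd smooth_inv smooth_christoffel)

section alg

variable {m : ℕ}

/-- the difference tensor of the two Levi-Civita connections -/
def Cf (v V : Fin m → ℝ) (k : Fin m → Fin m → ℝ) (l i j : Fin m) : ℝ :=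
  (if l = j then v i else 0) + (if l = i then v j else 0) - V l * k i j

theorem Cf_L (v V : Fin m → ℝ) (k : Fin m → Fin m → ℝ) (X : Fin m → ℝ) (i q : Fin m) :
    ∑ p, X p * Cf v V k p i q = X q * v i + X i * v q - (∑ p, X p * V p) * k i q := by
  have h : ∀ p, X p * Cf v V k p i q = (if p = q then X p * v i else 0) +
      (if p = i then X p * v q else 0) - X p * V p * k i q := by
    intro p
    unfold Cf
    split_ifs <;> ring
  simp only [h]
  rw [Finset.sum_sub_distrib, Finset.sum_add_distrib, ← Finset.sum_mul]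
  simp

theorem Cf_R (v V : Fin m → ℝ) (k : Fin m → Fin m → ℝ) (X : Fin m → ℝ) (i j : Fin m) :
    ∑ p, Cf v V k i j p * X p = v j * X i + (if i = j then ∑ p, v p * X p else 0)
      - V i * ∑ p, k j p * X p := by
  have h : ∀ p, Cf v V k i j p * X p = (if i = p then v j * X p else 0) +
      (if i = j then v p * X p else 0) - V i * (k j p * X p) := by
    intro p
    unfold Cf
    split_ifs <;> ring
  simp only [h]
  rw [Finset.sum_sub_distrib, Finset.sum_add_distrib, ← Finset.mul_sum]
  congr 1
  congr 1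
  · simp
  · split_ifs with hij
    · rfl
    · simp

variable {K k : Fin m → Fin m → ℝ} {v V : Fin m → ℝ} {G : Fin m → Fin m → Fin m → ℝ}
  (hK : ∀ i j, K i j = K j i) (hk : ∀ i j, k i j = k j i)
  (hKk : ∀ i j, ∑ p, K i p * k p j = if i = j then 1 else 0)
  (hV : ∀ i, V i = ∑ p, K i p * v p) (hG : ∀ l i j, G l i j = G l j i)

include hK hKk hV in
theorem V_k (j : Fin m) : ∑ i, V i * k i j = v j := by
  simp only [hV, Finset.sum_mul]
  rw [Finset.sum_comm]
  have h : ∀ p, ∑ i, K i p * v p * k i j = v p * ∑ i, K p i * k i j := by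
    intro p
    rw [Finset.mul_sum]
    apply Finset.sum_congr rfl
    intro i _
    rw [hK i p]
    ring
  simp only [h, hKk]
  simp

include hk hKk in
theorem K_k : ∑ j, ∑ q, K j q * k j q = m := by
  have h : ∀ j, ∑ q, K j q * k j q = 1 := by
    intro j
    have := hKk j j
    simp only [if_true] at this
    rw [← this]
    exact Finset.sum_congr rfl fun q _ => by rw [hk j q]
  simp [h]

include hK hV in
theorem V_l (p : Fin m) : ∑ j, K j p * v j = V p := by
  rw [hV]
  exact Finset.sum_congr rfl fun j _ => by rw [hK j p]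

/-- the sum of the diagonal entries -/
theorem Cf_tr (hVk : ∀ j, ∑ i, V i * k i j = v j) (p : Fin m) :
    ∑ i, Cf v V k i i p = m * v p := by
  unfold Cf
  rw [Finset.sum_sub_distrib, Finset.sum_add_distrib, hVk]
  simp

include hK hk hKk hV in
theorem Cf_K (p : Fin m) : ∑ j, ∑ q, K j q * Cf v V k p j q = (2 - m) * V p := by
  have h : ∀ j, ∑ q, K j q * Cf v V k p j q = K j p * v j + (if p = j then ∑ q, K j q * v q else 0)
      - V p * ∑ q, K j q * k j q := by
    intro j
    have h1 : ∀ q, K j q * Cf v V k p j q = (if p = q then K j q * v j else 0) +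
        (if p = j then K j q * v q else 0) - V p * (K j q * k j q) := by
      intro q
      unfold Cf
      split_ifs <;> ring
    simp only [h1]
    rw [Finset.sum_sub_distrib, Finset.sum_add_distrib, ← Finset.mul_sum]
    congr 1
    congr 1
    · simp
    · split_ifs with hpj
      · rfl
      · simp
  simp only [h]
  rw [Finset.sum_sub_distrib, Finset.sum_add_distrib, ← Finset.mul_sum, K_k hk hKk,
    V_l hK hV]
  simp only [← hV]
  simp
  ring

include hk in
theorem Cf_Cf (hVk : ∀ j, ∑ i, V i * k i j = v j) (j q : Fin m) :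
    ∑ i, ∑ p, Cf v V k i j p * Cf v V k p i q =
      (m + 2) * (v j * v q) - 2 * (∑ p, V p * v p) * k j q := by
  have hVk' : ∀ j, ∑ i, k j i * V i = v j := by
    intro j
    rw [← hVk j]
    exact Finset.sum_congr rfl fun i _ => by rw [hk j i, mul_comm]
  have hN : ∑ p, v p * V p = ∑ p, V p * v p := Finset.sum_congr rfl fun p _ => mul_comm _ _
  have h : ∀ i, ∑ p, Cf v V k i j p * Cf v V k p i q =
      v j * Cf v V k i i q + (if i = j then 2 * (v q * v j) - (∑ p, V p * v p) * k j q else 0)
      - ((V i * v i) * k j q + (V i * k i j) * v q - (V i * k i q) * v j) := by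
    intro i
    rw [Cf_R v V k (fun p => Cf v V k p i q), Cf_L v V k v, Cf_L v V k (fun p => k j p)]
    simp only [hVk', hN]
    congr 1
    · congr 1
      split_ifs with hij
      · rw [hij]
        ring
      · rfl
    · rw [hk j i]
      ring
  simp only [h]
  rw [Finset.sum_sub_distrib, Finset.sum_add_distrib, Finset.sum_sub_distrib,
    Finset.sum_add_distrib, ← Finset.mul_sum, Cf_tr hVk, ← Finset.sum_mul, ← Finset.sum_mul,
    ← Finset.sum_mul, hVk, hVk]
  simp
  ring

include hk hKk hV hG in
theorem G_Cf : ∑ j, ∑ q, K j q * ∑ i, ∑ p, G i j p * Cf v V k p i q =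
    ∑ j, ∑ q, K j q * ∑ l, G l j q * v l := by
  have h : ∀ j q, K j q * ∑ i, ∑ p, G i j p * Cf v V k p i q =
      K j q * (∑ l, G l j q * v l) + (∑ i, G i j i) * (K j q * v q)
        - ∑ i, (∑ p, G i j p * V p) * (K j q * k i q) := by
    intro j q
    have h1 : ∀ i, ∑ p, G i j p * Cf v V k p i q = G i j q * v i + G i j i * v q
        - (∑ p, G i j p * V p) * k i q := fun i => Cf_L v V k (fun p => G i j p) i q
    simp only [h1]
    rw [Finset.sum_sub_distrib, Finset.sum_add_distrib, mul_sub, mul_add, ← Finset.sum_mul,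
      Finset.mul_sum (f := fun i => (∑ p, G i j p * V p) * k i q)]
    congr 1
    · ring
    · exact Finset.sum_congr rfl fun i _ => by ring
  simp only [h]
  simp only [Finset.sum_sub_distrib, Finset.sum_add_distrib]
  have h2 : ∑ j, ∑ q, (∑ i, G i j i) * (K j q * v q) = ∑ j, (∑ i, G i j i) * V j := by
    apply Finset.sum_congr rfl
    intro j _
    rw [← Finset.mul_sum, hV]
  have h3 : ∑ j, ∑ q, ∑ i, (∑ p, G i j p * V p) * (K j q * k i q) =
      ∑ j, (∑ i, G i j i) * V j := by
    have h4 : ∀ j, ∑ q, ∑ i, (∑ p, G i j p * V p) * (K j q * k i q) = ∑ p, G j j p * V p := by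
      intro j
      rw [Finset.sum_comm]
      have h5 : ∀ i, ∑ q, (∑ p, G i j p * V p) * (K j q * k i q) =
          if j = i then ∑ p, G i j p * V p else 0 := by
        intro i
        rw [← Finset.mul_sum]
        have h6 : ∑ q, K j q * k i q = if j = i then 1 else 0 := by
          rw [← hKk]
          exact Finset.sum_congr rfl fun q _ => by rw [hk i q]
        rw [h6]
        split_ifs <;> ring
      simp only [h5]
      simp
    simp only [h4]
    rw [Finset.sum_comm]
    apply Finset.sum_congr rfl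
    intro j _
    rw [Finset.sum_mul]
    exact Finset.sum_congr rfl fun i _ => by rw [hG i i j]
  rw [h2, h3]
  ring

include hk in
theorem Cf_symm (l i j : Fin m) : Cf v V k l i j = Cf v V k l j i := by
  unfold Cf
  rw [hk i j]
  ring

include hK hk hG in
theorem Cf_G : ∑ j, ∑ q, K j q * ∑ i, ∑ p, Cf v V k i j p * G p i q =
    ∑ j, ∑ q, K j q * ∑ i, ∑ p, G i j p * Cf v V k p i q := by
  rw [Finset.sum_comm]
  apply Finset.sum_congr rfl
  intro a _
  apply Finset.sum_congr rfl
  intro b _
  rw [hK b a]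
  congr 1
  rw [Finset.sum_comm]
  apply Finset.sum_congr rfl
  intro c _
  apply Finset.sum_congr rfl
  intro d _
  rw [hG c d a, Cf_symm hk d b c]
  ring

/-- the terms with first derivatives of the metric -/
theorem first_order (hKs : ∀ i j, K i j = K j i) (dk : Fin m → Fin m → Fin m → ℝ)
    (hdk : ∀ i a b, dk i a b = dk i b a)
    (hVl : ∀ p, ∑ j, K j p * v j = V p)
    (hGd : ∀ l i j, G l i j = ∑ s, K l s * (dk i j s + dk j i s - dk s i j) / 2) :
    (∑ j, ∑ q, K j q * ∑ l, G l j q * v l = (∑ j, ∑ q, K j q * ∑ s, V s * dk j q s)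
      - (∑ j, ∑ q, K j q * ∑ s, V s * dk s j q) / 2) ∧
    (∑ p, (∑ i, G i i p) * V p = (∑ j, ∑ q, K j q * ∑ s, V s * dk s j q) / 2) := by
  constructor
  · have h1 : ∀ j q, ∑ l, G l j q * v l = ∑ s, V s * (dk j q s + dk q j s - dk s j q) / 2 := by
      intro j q
      simp only [hGd, Finset.sum_mul]
      rw [Finset.sum_comm]
      apply Finset.sum_congr rfl
      intro s _
      have h2 : ∀ l, K l s * (dk j q s + dk q j s - dk s j q) / 2 * v l =
          (dk j q s + dk q j s - dk s j q) / 2 * (K l s * v l) := fun l => by ring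
      simp only [h2]
      rw [← Finset.mul_sum, hVl]
      ring
    simp only [h1]
    have h3 : ∀ j q, K j q * ∑ s, V s * (dk j q s + dk q j s - dk s j q) / 2 =
        (K j q * ∑ s, V s * dk j q s) / 2 + (K j q * ∑ s, V s * dk q j s) / 2
          - (K j q * ∑ s, V s * dk s j q) / 2 := by
      intro j q
      have h4 : ∑ s, V s * (dk j q s + dk q j s - dk s j q) / 2 =
          (∑ s, V s * dk j q s) / 2 + (∑ s, V s * dk q j s) / 2 - (∑ s, V s * dk s j q) / 2 := by
        rw [Finset.sum_div, Finset.sum_div, Finset.sum_div, ← Finset.sum_add_distrib,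
          ← Finset.sum_sub_distrib]
        exact Finset.sum_congr rfl fun s _ => by ring
      rw [h4]
      ring
    simp only [h3]
    simp only [Finset.sum_sub_distrib, Finset.sum_add_distrib, ← Finset.sum_div]
    have h5 : ∑ j, ∑ q, K j q * ∑ s, V s * dk q j s = ∑ j, ∑ q, K j q * ∑ s, V s * dk j q s := by
      rw [Finset.sum_comm]
      exact Finset.sum_congr rfl fun a _ => Finset.sum_congr rfl fun b _ => by rw [hKs b a]
    rw [h5]
    ring
  · have h1 : ∀ p, ∑ i, G i i p = (∑ j, ∑ q, K j q * dk p j q) / 2 := by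
      intro p
      simp only [hGd]
      have h2 : ∀ i s, K i s * (dk i p s + dk p i s - dk s i p) / 2 =
          K i s * dk i p s / 2 + K i s * dk p i s / 2 - K i s * dk s i p / 2 :=
        fun i s => by ring
      simp only [h2]
      simp only [Finset.sum_sub_distrib, Finset.sum_add_distrib, ← Finset.sum_div]
      have h3 : ∑ i, ∑ s, K i s * dk s i p = ∑ i, ∑ s, K i s * dk i p s := by
        rw [Finset.sum_comm]
        exact Finset.sum_congr rfl fun a _ => Finset.sum_congr rfl fun b _ => by
          rw [hKs b a, hdk a b p]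
      rw [h3]
      ring
    simp only [h1]
    have h4 : ∀ j q, K j q * ∑ s, V s * dk s j q = ∑ s, K j q * dk s j q * V s := by
      intro j q
      rw [Finset.mul_sum]
      exact Finset.sum_congr rfl fun s _ => by ring
    simp only [h4]
    have h5 : ∑ j, ∑ q, ∑ s, K j q * dk s j q * V s = ∑ s, (∑ j, ∑ q, K j q * dk s j q) * V s := by
      simp only [Finset.sum_mul]
      rw [Finset.sum_comm]
      have h6 : ∀ q, ∑ j, ∑ s, K j q * dk s j q * V s = ∑ s, ∑ j, K j q * dk s j q * V s :=
        fun q => Finset.sum_comm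
      simp only [h6]
      rw [Finset.sum_comm]
      exact Finset.sum_congr rfl fun s _ => Finset.sum_comm
    rw [h5, Finset.sum_div]
    exact Finset.sum_congr rfl fun s _ => by ring

theorem swap3 (K : Fin m → Fin m → ℝ) (X : Fin m → ℝ) (C : Fin m → Fin m → Fin m → ℝ) :
    ∑ j, ∑ q, K j q * ∑ p, X p * C p j q = ∑ p, X p * ∑ j, ∑ q, K j q * C p j q := by
  simp only [Finset.mul_sum]
  have h1 : ∀ j, ∑ q, ∑ p, K j q * (X p * C p j q) = ∑ p, ∑ q, K j q * (X p * C p j q) :=
    fun j => Finset.sum_comm
  simp only [h1]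
  rw [Finset.sum_comm]
  exact Finset.sum_congr rfl fun p _ => Finset.sum_congr rfl fun j _ =>
    Finset.sum_congr rfl fun q _ => by ring

/-- the divergence of the inverse matrix -/
theorem div_inv (hVk : ∀ j, ∑ i, V i * k i j = v j) (hks : ∀ i j, k i j = k j i)
    (dk dK : Fin m → Fin m → Fin m → ℝ)
    (hd : ∀ i a b, ∑ p, (K a p * dk i p b + dK i a p * k p b) = 0) :
    ∑ i, ∑ p, dK i i p * v p = - ∑ j, ∑ q, K j q * ∑ s, V s * dk j q s := by
  rw [← Finset.sum_neg_distrib]
  apply Finset.sum_congr rfl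
  intro i _
  have h1 : ∀ p, dK i i p * v p = ∑ s, V s * (dK i i p * k p s) := by
    intro p
    rw [← hVk p, Finset.mul_sum]
    exact Finset.sum_congr rfl fun s _ => by rw [hks s p]; ring
  simp only [h1]
  rw [Finset.sum_comm]
  simp only [← Finset.mul_sum]
  have h2 : ∀ s, ∑ p, dK i i p * k p s = - ∑ p, K i p * dk i p s := by
    intro s
    have := hd i i s
    rw [Finset.sum_add_distrib] at this
    linarith
  simp only [h2]
  have h3 : ∀ s, V s * -∑ p, K i p * dk i p s = ∑ p, -(K i p * (V s * dk i p s)) := by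
    intro s
    rw [← Finset.sum_neg_distrib, Finset.mul_sum]
    exact Finset.sum_congr rfl fun p _ => by ring
  have h4 : ∀ q, K i q * ∑ s, V s * dk i q s = ∑ s, K i q * (V s * dk i q s) :=
    fun q => Finset.mul_sum _ _ _
  simp only [h3, h4]
  rw [Finset.sum_comm, ← Finset.sum_neg_distrib]
  exact Finset.sum_congr rfl fun q _ => by rw [Finset.sum_neg_distrib]

end alg

section met

variable {m : ℕ} {k : Coord m} {v : (Fin m → ℝ) → ℝ}

theorem met_det (hk : Met k) (t : Fin m → ℝ) : (Matrix.of (k t)).det ≠ 0 := H17.det_ne (hk.pos t)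

theorem inv_symm' (hk : Met k) (t : Fin m → ℝ) (i j : Fin m) : inv k i j t = inv k j i t := by
  unfold inv
  have h1 : (Matrix.of (k t)).transpose = Matrix.of (k t) := by
    ext a b
    exact hk.symm t b a
  have h2 : ((Matrix.of (k t))⁻¹).transpose = (Matrix.of (k t))⁻¹ := by
    rw [Matrix.transpose_nonsing_inv, h1]
  exact congrFun (congrFun h2 j) i

theorem inv_mul' (hk : Met k) (t : Fin m → ℝ) (i j : Fin m) :
    ∑ p, inv k i p t * k t p j = if i = j then 1 else 0 := by
  have h1 : (Matrix.of (k t))⁻¹ * Matrix.of (k t) = 1 :=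
    Matrix.nonsing_inv_mul _ (isUnit_iff_ne_zero.2 (met_det hk t))
  have h2 := congrFun (congrFun h1 i) j
  rw [Matrix.mul_apply, Matrix.one_apply] at h2
  exact h2

/-- the gradient -/
def Vf (k : Coord m) (v : (Fin m → ℝ) → ℝ) (i : Fin m) (t : Fin m → ℝ) : ℝ :=
  ∑ p, inv k i p t * pd p v t

theorem chr_symm' (hk : Met k) (l i j : Fin m) (t : Fin m → ℝ) :
    christoffel k l i j t = christoffel k l j i t := by
  unfold christoffel
  have h : (fun z => k z i j) = fun z => k z j i := funext fun z => hk.symm z i j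
  apply Finset.sum_congr rfl
  intro s _
  rw [h]
  ring

theorem inv_cfm (hk : Met k) (v : (Fin m → ℝ) → ℝ) (i j : Fin m) (t : Fin m → ℝ) :
    inv (cfm v k) i j t = Real.exp (-(2 * v t)) * inv k i j t := by
  have h : (Matrix.of (cfm v k t))⁻¹ = Real.exp (-(2 * v t)) • (Matrix.of (k t))⁻¹ := by
    apply Matrix.inv_eq_right_inv
    have h1 : Matrix.of (cfm v k t) = Real.exp (2 * v t) • Matrix.of (k t) := by
      ext a b
      rfl
    rw [h1, Matrix.smul_mul, Matrix.mul_smul, smul_smul,
      Matrix.mul_nonsing_inv _ (isUnit_iff_ne_zero.2 (met_det hk t)), ← Real.exp_add]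
    simp
  unfold inv
  rw [h]
  rfl

theorem diff' {f : (Fin m → ℝ) → ℝ} (hf : ContDiff ℝ ∞ f) (t : Fin m → ℝ) :
    DifferentiableAt ℝ f t := (hf.differentiable (by simp)) t

theorem pd_add' (i : Fin m) {f g : (Fin m → ℝ) → ℝ} (hf : ContDiff ℝ ∞ f) (hg : ContDiff ℝ ∞ g)
    (t : Fin m → ℝ) : pd i (fun z => f z + g z) t = pd i f t + pd i g t := by
  unfold pd
  rw [fderiv_fun_add (diff' hf t) (diff' hg t)]
  rfl

theorem pd_sub' (i : Fin m) {f g : (Fin m → ℝ) → ℝ} (hf : ContDiff ℝ ∞ f) (hg : ContDiff ℝ ∞ g)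
    (t : Fin m → ℝ) : pd i (fun z => f z - g z) t = pd i f t - pd i g t := by
  unfold pd
  rw [fderiv_fun_sub (diff' hf t) (diff' hg t)]
  rfl

theorem pd_mul' (i : Fin m) {f g : (Fin m → ℝ) → ℝ} (hf : ContDiff ℝ ∞ f) (hg : ContDiff ℝ ∞ g)
    (t : Fin m → ℝ) : pd i (fun z => f z * g z) t = f t * pd i g t + pd i f t * g t := by
  unfold pd
  rw [fderiv_fun_mul (diff' hf t) (diff' hg t)]
  simp [mul_comm]

theorem pd_sum' (i : Fin m) {f : Fin m → (Fin m → ℝ) → ℝ} (hf : ∀ p, ContDiff ℝ ∞ (f p))
    (t : Fin m → ℝ) : pd i (fun z => ∑ p, f p z) t = ∑ p, pd i (f p) t := by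
  unfold pd
  rw [fderiv_fun_sum (fun p _ => diff' (hf p) t)]
  simp

theorem pd_if' (i : Fin m) (P : Prop) [Decidable P] (f : (Fin m → ℝ) → ℝ) (t : Fin m → ℝ) :
    pd i (fun z => if P then f z else 0) t = if P then pd i f t else 0 := by
  split_ifs
  · rfl
  · unfold pd
    simp

theorem pd_cfm (hk : Met k) (hv : ContDiff ℝ ∞ v) (i a b : Fin m) (t : Fin m → ℝ) :
    pd i (fun z => cfm v k z a b) t =
      Real.exp (2 * v t) * (2 * pd i v t * k t a b + pd i (fun z => k z a b) t) := by
  have h1 : (fun z => cfm v k z a b) = fun z => Real.exp (2 * v z) * k z a b := rfl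
  have h2 : ContDiff ℝ ∞ (fun z => Real.exp (2 * v z)) := (contDiff_const.mul hv).exp
  have h3 : pd i (fun z => Real.exp (2 * v z)) t = Real.exp (2 * v t) * (2 * pd i v t) := by
    unfold pd
    rw [fderiv_exp ((diff' hv t).const_mul 2), fderiv_const_mul (diff' hv t)]
    simp
  rw [h1, pd_mul' i h2 (hk.smooth a b), h3]
  ring

theorem chr_cfm (hk : Met k) (hv : ContDiff ℝ ∞ v) (l i j : Fin m) (t : Fin m → ℝ) :
    christoffel (cfm v k) l i j t = christoffel k l i j t
      + Cf (fun p => pd p v t) (fun p => Vf k v p t) (k t) l i j := by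
  have hE : Real.exp (-(2 * v t)) * Real.exp (2 * v t) = 1 := by
    rw [← Real.exp_add]
    simp
  unfold christoffel
  have h : ∀ s, inv (cfm v k) l s t * (pd i (fun z => cfm v k z j s) t
      + pd j (fun z => cfm v k z i s) t - pd s (fun z => cfm v k z i j) t) / 2 =
      inv k l s t * (pd i (fun z => k z j s) t + pd j (fun z => k z i s) t
        - pd s (fun z => k z i j) t) / 2
      + ((inv k l s t * k t s j) * pd i v t + (inv k l s t * k t s i) * pd j v t
        - (inv k l s t * pd s v t) * k t i j) := by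
    intro s
    rw [inv_cfm hk, pd_cfm hk hv, pd_cfm hk hv, pd_cfm hk hv, hk.symm t s j, hk.symm t s i]
    linear_combination (inv k l s t * (pd i (fun z => k z j s) t + pd j (fun z => k z i s) t
        - pd s (fun z => k z i j) t) / 2
      + ((inv k l s t * k t j s) * pd i v t + (inv k l s t * k t i s) * pd j v t
        - (inv k l s t * pd s v t) * k t i j)) * hE
  simp only [h]
  rw [Finset.sum_add_distrib, Finset.sum_sub_distrib, Finset.sum_add_distrib, ← Finset.sum_mul,
    ← Finset.sum_mul, ← Finset.sum_mul, inv_mul' hk, inv_mul' hk]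
  congr 1
  unfold Cf Vf
  congr 1
  congr 1
  · split_ifs <;> simp
  · split_ifs <;> simp

theorem ricci_eq {g : Coord m} (hg : ∀ l i j, ContDiff ℝ ∞ (christoffel g l i j)) (j q : Fin m)
    (t : Fin m → ℝ) : ricci g j q t = ∑ i, pd i (christoffel g i j q) t
      - pd j (fun z => ∑ i, christoffel g i i q z) t
      + ∑ p, (∑ i, christoffel g i i p t) * christoffel g p j q t
      - ∑ i, ∑ p, christoffel g i j p t * christoffel g p i q t := by
  rw [pd_sum' j (fun i => hg i i q)]
  unfold ricci curv
  simp only [Finset.sum_add_distrib, Finset.sum_sub_distrib, Finset.sum_mul]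
  rw [Finset.sum_comm (f := fun i p => christoffel g p p i t * christoffel g i j q t)]
  ring

theorem met_cfm (hk : Met k) (hv : ContDiff ℝ ∞ v) : Met (cfm v k) := by
  refine ⟨fun i j => ?_, fun t i j => ?_, fun t w hw => ?_⟩
  · exact (contDiff_const.mul hv).exp.mul (hk.smooth i j)
  · unfold cfm
    rw [hk.symm t i j]
  · have h := hk.pos t w hw
    have e : ∑ i, ∑ j, cfm v k t i j * w i * w j =
        Real.exp (2 * v t) * ∑ i, ∑ j, k t i j * w i * w j := by
      rw [Finset.mul_sum]
      apply Finset.sum_congr rfl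
      intro i _
      rw [Finset.mul_sum]
      apply Finset.sum_congr rfl
      intro j _
      unfold cfm
      ring
    rw [e]
    exact mul_pos (Real.exp_pos _) h

theorem smooth_Vf (hk : Met k) (hv : ContDiff ℝ ∞ v) (i : Fin m) : ContDiff ℝ ∞ (Vf k v i) := by
  unfold Vf
  exact ContDiff.sum fun p _ => (smooth_inv hk.smooth (met_det hk) i p).mul (smooth_pd hv p)

theorem pd_chr (hk : Met k) (hv : ContDiff ℝ ∞ v) (i l a b : Fin m) (t : Fin m → ℝ) :
    pd i (christoffel (cfm v k) l a b) t = pd i (christoffel k l a b) t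
      + ((if l = b then pd i (pd a v) t else 0) + (if l = a then pd i (pd b v) t else 0)
        - (Vf k v l t * pd i (fun z => k z a b) t + pd i (Vf k v l) t * k t a b)) := by
  have h : christoffel (cfm v k) l a b = fun z => christoffel k l a b z
      + (((if l = b then pd a v z else 0) + (if l = a then pd b v z else 0))
        - Vf k v l z * k z a b) := by
    funext z
    rw [chr_cfm hk hv]
    rfl
  have hc := smooth_christoffel hk.smooth (met_det hk) l a b
  have s1 : ∀ (P : Prop) [Decidable P] (c : Fin m),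
      ContDiff ℝ ∞ (fun z => if P then pd c v z else 0) := by
    intro P _ c
    split_ifs
    · exact smooth_pd hv c
    · exact contDiff_const
  have s2 : ContDiff ℝ ∞ (fun z => Vf k v l z * k z a b) :=
    (smooth_Vf hk hv l).mul (hk.smooth a b)
  rw [h, pd_add' i hc (((s1 _ _).add (s1 _ _)).sub s2), pd_sub' i ((s1 _ _).add (s1 _ _)) s2,
    pd_add' i (s1 _ _) (s1 _ _), pd_if', pd_if', pd_mul' i (smooth_Vf hk hv l) (hk.smooth a b)]

theorem tr_chr (hk : Met k) (hv : ContDiff ℝ ∞ v) (q : Fin m) (t : Fin m → ℝ) :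
    ∑ i, christoffel (cfm v k) i i q t = ∑ i, christoffel k i i q t + m * pd q v t := by
  have hVk : ∀ j, ∑ i, Vf k v i t * k t i j = pd j v t :=
    V_k (inv_symm' hk t) (inv_mul' hk t) (fun i => rfl)
  simp only [chr_cfm hk hv]
  rw [Finset.sum_add_distrib, Cf_tr hVk]

theorem pd_tr_chr (hk : Met k) (hv : ContDiff ℝ ∞ v) (j q : Fin m) (t : Fin m → ℝ) :
    pd j (fun z => ∑ i, christoffel (cfm v k) i i q z) t =
      pd j (fun z => ∑ i, christoffel k i i q z) t + m * pd j (pd q v) t := by
  have h : (fun z => ∑ i, christoffel (cfm v k) i i q z) =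
      fun z => (∑ i, christoffel k i i q z) + (m : ℝ) * pd q v z := by
    funext z
    exact tr_chr hk hv q z
  have s1 : ContDiff ℝ ∞ (fun z => ∑ i, christoffel k i i q z) :=
    ContDiff.sum fun i _ => smooth_christoffel hk.smooth (met_det hk) i i q
  have s2 : ContDiff ℝ ∞ (pd q v) := smooth_pd hv q
  have s3 : ContDiff ℝ ∞ (fun _ : Fin m → ℝ => (m : ℝ)) := contDiff_const
  rw [h, pd_add' j s1 (s3.mul s2), pd_mul' j s3 s2]
  have h0 : pd j (fun _ : Fin m → ℝ => (m : ℝ)) t = 0 := by
    unfold pd
    simp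
  rw [h0]
  ring

/-- the derivative of the relation between the inverse and the metric -/
theorem pd_inv_rel (hk : Met k) (t : Fin m → ℝ) (i a b : Fin m) :
    ∑ p, (inv k a p t * pd i (fun z => k z p b) t + pd i (inv k a p) t * k t p b) = 0 := by
  have h : (fun z => ∑ p, inv k a p z * k z p b) = fun _ => if a = b then 1 else 0 := by
    funext z
    exact inv_mul' hk z a b
  have h1 : pd i (fun z => ∑ p, inv k a p z * k z p b) t = 0 := by
    rw [h]
    unfold pd
    simp
  have s1 : ∀ p, ContDiff ℝ ∞ (inv k a p) := fun p => smooth_inv hk.smooth (met_det hk) a p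
  rw [pd_sum' i (f := fun p z => inv k a p z * k z p b) (fun p => (s1 p).mul (hk.smooth p b))] at h1
  rw [← h1]
  exact Finset.sum_congr rfl fun p _ => (pd_mul' i (s1 p) (hk.smooth p b) t).symm

theorem pd_Vf (hk : Met k) (hv : ContDiff ℝ ∞ v) (i l : Fin m) (t : Fin m → ℝ) :
    pd i (Vf k v l) t = ∑ p, inv k l p t * pd i (pd p v) t + ∑ p, pd i (inv k l p) t * pd p v t := by
  have s1 : ∀ p, ContDiff ℝ ∞ (inv k l p) := fun p => smooth_inv hk.smooth (met_det hk) l p
  have h : Vf k v l = fun z => ∑ p, inv k l p z * pd p v z := rfl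
  rw [h, pd_sum' i (f := fun p z => inv k l p z * pd p v z)
    (fun p => (s1 p).mul (smooth_pd hv p)), ← Finset.sum_add_distrib]
  exact Finset.sum_congr rfl fun p _ => pd_mul' i (s1 p) (smooth_pd hv p) t

theorem ricci_cfm (hk : Met k) (hv : ContDiff ℝ ∞ v) (j q : Fin m) (t : Fin m → ℝ) :
    ricci (cfm v k) j q t = ricci k j q t
      + (pd q (pd j v) t + pd j (pd q v) t - ∑ s, Vf k v s t * pd s (fun z => k z j q) t
        - (∑ i, pd i (Vf k v i) t) * k t j q)
      - m * pd j (pd q v) t
      + (∑ p, (∑ i, christoffel k i i p t) * Cf (fun p => pd p v t) (fun p => Vf k v p t) (k t) p j q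
        + m * ∑ p, christoffel k p j q t * pd p v t
        + m * ∑ p, pd p v t * Cf (fun p => pd p v t) (fun p => Vf k v p t) (k t) p j q)
      - (∑ i, ∑ p, christoffel k i j p t
            * Cf (fun p => pd p v t) (fun p => Vf k v p t) (k t) p i q
        + ∑ i, ∑ p, Cf (fun p => pd p v t) (fun p => Vf k v p t) (k t) i j p
            * christoffel k p i q t
        + ∑ i, ∑ p, Cf (fun p => pd p v t) (fun p => Vf k v p t) (k t) i j p
            * Cf (fun p => pd p v t) (fun p => Vf k v p t) (k t) p i q) := by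
  rw [ricci_eq (smooth_christoffel (met_cfm hk hv).smooth (met_det (met_cfm hk hv))),
    ricci_eq (smooth_christoffel hk.smooth (met_det hk)), pd_tr_chr hk hv]
  simp only [pd_chr hk hv, tr_chr hk hv]
  simp only [chr_cfm hk hv]
  set C := Cf (fun p => pd p v t) (fun p => Vf k v p t) (k t) with hC
  have h1 : ∑ i, (pd i (christoffel k i j q) t + ((if i = q then pd i (pd j v) t else 0)
      + (if i = j then pd i (pd q v) t else 0)
      - (Vf k v i t * pd i (fun z => k z j q) t + pd i (Vf k v i) t * k t j q))) =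
      ∑ i, pd i (christoffel k i j q) t + (pd q (pd j v) t + pd j (pd q v) t
        - ∑ s, Vf k v s t * pd s (fun z => k z j q) t
        - (∑ i, pd i (Vf k v i) t) * k t j q) := by
    rw [Finset.sum_add_distrib, Finset.sum_sub_distrib, Finset.sum_add_distrib,
      Finset.sum_add_distrib, Finset.sum_mul]
    simp
    ring
  have h2 : ∑ p, (∑ i, christoffel k i i p t + m * pd p v t) * (christoffel k p j q t + C p j q) =
      ∑ p, (∑ i, christoffel k i i p t) * christoffel k p j q t
      + (∑ p, (∑ i, christoffel k i i p t) * C p j q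
        + m * ∑ p, christoffel k p j q t * pd p v t + m * ∑ p, pd p v t * C p j q) := by
    rw [Finset.mul_sum, Finset.mul_sum, ← Finset.sum_add_distrib, ← Finset.sum_add_distrib,
      ← Finset.sum_add_distrib]
    exact Finset.sum_congr rfl fun p _ => by ring
  have h3 : ∑ i, ∑ p, (christoffel k i j p t + C i j p) * (christoffel k p i q t + C p i q) =
      ∑ i, ∑ p, christoffel k i j p t * christoffel k p i q t
      + (∑ i, ∑ p, christoffel k i j p t * C p i q + ∑ i, ∑ p, C i j p * christoffel k p i q t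
        + ∑ i, ∑ p, C i j p * C p i q) := by
    simp only [← Finset.sum_add_distrib]
    exact Finset.sum_congr rfl fun i _ => Finset.sum_congr rfl fun p _ => by ring
  rw [h1, h2, h3]
  ring

theorem cnf : CnfStmt := by
  intro m k v hk hv t
  have hK := inv_symm' hk t
  have hkk := hk.symm t
  have hKk := inv_mul' hk t
  have hV : ∀ i, Vf k v i t = ∑ p, inv k i p t * pd p v t := fun i => rfl
  have hG := fun l i j => chr_symm' hk l i j t
  have hVk : ∀ j, ∑ i, Vf k v i t * k t i j = pd j v t :=
    V_k (K := fun i j => inv k i j t) (V := fun i => Vf k v i t) (v := fun p => pd p v t)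
      hK hKk (fun i => rfl)
  have hVl : ∀ p, ∑ j, inv k j p t * pd j v t = Vf k v p t :=
    V_l (K := fun i j => inv k i j t) (V := fun i => Vf k v i t) (v := fun p => pd p v t)
      hK (fun i => rfl)
  obtain ⟨hB, hT⟩ := first_order (K := fun i j => inv k i j t) (V := fun i => Vf k v i t)
    (v := fun p => pd p v t) (G := fun l i j => christoffel k l i j t) hK
    (fun s a b => pd s (fun z => k z a b) t)
    (fun s a b => by
      have : (fun z => k z a b) = fun z => k z b a := funext fun z => hk.symm z a b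
      rw [this]) hVl (fun l i j => rfl)
  have hQ := div_inv (K := fun i j => inv k i j t) (V := fun i => Vf k v i t)
    (v := fun p => pd p v t) (k := k t) hVk hkk (fun s a b => pd s (fun z => k z a b) t)
    (fun s a b => pd s (inv k a b) t) (fun i a b => pd_inv_rel hk t i a b)
  have hCK := Cf_K (K := fun i j => inv k i j t) (V := fun i => Vf k v i t)
    (v := fun p => pd p v t) (k := k t) hK hkk hKk (fun i => rfl)
  have hGC := G_Cf (K := fun i j => inv k i j t) (V := fun i => Vf k v i t)
    (v := fun p => pd p v t) (k := k t) (G := fun l i j => christoffel k l i j t)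
    hkk hKk (fun i => rfl) hG
  have hCG := Cf_G (K := fun i j => inv k i j t) (V := fun i => Vf k v i t)
    (v := fun p => pd p v t) (k := k t) (G := fun l i j => christoffel k l i j t) hK hkk hG
  have hCC := Cf_Cf (V := fun i => Vf k v i t) (v := fun p => pd p v t) (k := k t) hkk hVk
  have hKK := K_k (K := fun i j => inv k i j t) (k := k t) hkk hKk
  have hA : ∑ j, ∑ q, inv k j q t * pd q (pd j v) t = ∑ j, ∑ q, inv k j q t * pd j (pd q v) t := by
    rw [Finset.sum_comm]
    exact Finset.sum_congr rfl fun a _ => Finset.sum_congr rfl fun b _ => by rw [hK b a]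
  have hD : ∑ i, pd i (Vf k v i) t = ∑ j, ∑ q, inv k j q t * pd j (pd q v) t
      + ∑ i, ∑ p, pd i (inv k i p) t * pd p v t := by
    rw [← Finset.sum_add_distrib]
    exact Finset.sum_congr rfl fun i _ => pd_Vf hk hv i i t
  have hN : gip k v v t = ∑ p, Vf k v p t * pd p v t := by
    unfold gip
    apply Finset.sum_congr rfl
    intro i _
    rw [hV, Finset.sum_mul]
    exact Finset.sum_congr rfl fun j _ => by ring
  have hL : lapM k v t = ∑ j, ∑ q, inv k j q t * pd j (pd q v) t
      - ∑ j, ∑ q, inv k j q t * ∑ l, christoffel k l j q t * pd l v t := by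
    unfold lapM
    rw [← Finset.sum_sub_distrib]
    apply Finset.sum_congr rfl
    intro i _
    rw [← Finset.sum_sub_distrib]
    exact Finset.sum_congr rfl fun j _ => by ring
  set C := Cf (fun p => pd p v t) (fun p => Vf k v p t) (k t) with hC
  have hTC : ∑ j, ∑ q, inv k j q t * ∑ p, (∑ i, christoffel k i i p t) * C p j q =
      (2 - m) * ∑ p, (∑ i, christoffel k i i p t) * Vf k v p t := by
    rw [swap3 (fun j q => inv k j q t) (fun p => ∑ i, christoffel k i i p t) C, Finset.mul_sum]
    simp only [hCK]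
    exact Finset.sum_congr rfl fun p _ => by ring
  have hvC : ∑ j, ∑ q, inv k j q t * ∑ p, pd p v t * C p j q =
      (2 - m) * ∑ p, Vf k v p t * pd p v t := by
    rw [swap3 (fun j q => inv k j q t) (fun p => pd p v t) C, Finset.mul_sum]
    simp only [hCK]
    exact Finset.sum_congr rfl fun p _ => by ring
  have hCC' : ∑ j, ∑ q, inv k j q t * ∑ i, ∑ p, C i j p * C p i q =
      (2 - m) * ∑ p, Vf k v p t * pd p v t := by
    simp only [hCC]
    have h2 : ∀ j q, inv k j q t * ((m + 2) * (pd j v t * pd q v t)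
        - 2 * (∑ p, Vf k v p t * pd p v t) * k t j q) =
        (m + 2) * (inv k j q t * pd j v t * pd q v t)
        - 2 * (∑ p, Vf k v p t * pd p v t) * (inv k j q t * k t j q) := fun j q => by ring
    simp only [h2, Finset.sum_sub_distrib, ← Finset.mul_sum]
    rw [hKK]
    have h3 : ∑ j, ∑ q, inv k j q t * pd j v t * pd q v t = ∑ p, Vf k v p t * pd p v t := hN
    rw [h3]
    ring
  have h1 : ∀ j q, inv (cfm v k) j q t * ricci (cfm v k) j q t =
      Real.exp (-(2 * v t)) * (inv k j q t * ricci k j q t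
        + (inv k j q t * pd q (pd j v) t + inv k j q t * pd j (pd q v) t
          - inv k j q t * ∑ s, Vf k v s t * pd s (fun z => k z j q) t
          - (∑ i, pd i (Vf k v i) t) * (inv k j q t * k t j q))
        - m * (inv k j q t * pd j (pd q v) t)
        + (inv k j q t * ∑ p, (∑ i, christoffel k i i p t) * C p j q
          + m * (inv k j q t * ∑ p, christoffel k p j q t * pd p v t)
          + m * (inv k j q t * ∑ p, pd p v t * C p j q))
        - (inv k j q t * ∑ i, ∑ p, christoffel k i j p t * C p i q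
          + inv k j q t * ∑ i, ∑ p, C i j p * christoffel k p i q t
          + inv k j q t * ∑ i, ∑ p, C i j p * C p i q)) := by
    intro j q
    rw [inv_cfm hk, ricci_cfm hk hv, ← hC]
    ring
  unfold scal
  simp only [h1]
  simp only [← Finset.mul_sum]
  congr 1
  simp only [Finset.sum_add_distrib, Finset.sum_sub_distrib, ← Finset.mul_sum]
  rw [hTC, hvC, hCC', hN, hL, hD, hA, hCG, hGC, hQ, hT, hB, hKK]
  ring

end met

end Pool.Agent.BCS.H88
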