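import Pool.Agent.BCS.Stmts

/-!
# Squad BCS (MP_fb4904_gt), row KEY: the key inequality

Green's formula for a vector field built from a spinor `w` and the pointwise inequality PWI.
-/

set_option autoImplicit false

noncomputable section

open scoped ContDiff Topology ComplexConjugate
open Set MeasureTheory

namespace Pool.Agent.BCS.H88

open Pool.Agent.BCS

/-! ### first and second derivatives -/

theorem cd_dx {f : ℂ → ℝ} (hf : ContDiff ℝ 2 f) : ContDiff ℝ 1 (dx f) := by
  have h : ContDiff ℝ 1 (fderiv ℝ f) := hf.fderiv_right (by norm_num)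
  exact h.clm_apply contDiff_const

theorem cd_dy {f : ℂ → ℝ} (hf : ContDiff ℝ 2 f) : ContDiff ℝ 1 (dy f) := by
  have h : ContDiff ℝ 1 (fderiv ℝ f) := hf.fderiv_right (by norm_num)
  exact h.clm_apply contDiff_const

theorem ct_dx {f : ℂ → ℝ} (hf : ContDiff ℝ 1 f) : Continuous (dx f) := by
  have h : Continuous (fderiv ℝ f) := hf.continuous_fderiv (by norm_num)
  exact h.clm_apply continuous_const

theorem ct_dy {f : ℂ → ℝ} (hf : ContDiff ℝ 1 f) : Continuous (dy f) := by
  have h : Continuous (fderiv ℝ f) := hf.continuous_fderiv (by norm_num)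
  exact h.clm_apply continuous_const

theorem snd {f : ℂ → ℝ} (hf : ContDiff ℝ 2 f) (z a b : ℂ) :
    fderiv ℝ (fun z => fderiv ℝ f z b) z a = fderiv ℝ (fderiv ℝ f) z a b := by
  have h : ContDiff ℝ 1 (fderiv ℝ f) := hf.fderiv_right (by norm_num)
  have h1 : DifferentiableAt ℝ (fderiv ℝ f) z := (h.differentiable (by norm_num)) z
  have h2 := (h1.hasFDerivAt.clm_apply (hasFDerivAt_const b z)).fderiv
  rw [h2]
  simp

theorem mixed {f : ℂ → ℝ} (hf : ContDiff ℝ 2 f) (z : ℂ) : dx (dy f) z = dy (dx f) z := by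
  unfold dx dy
  rw [snd hf, snd hf]
  have h : IsSymmSndFDerivAt ℝ f z :=
    (hf.contDiffAt (x := z)).isSymmSndFDerivAt (by simp)
  exact h.eq _ _

/-! ### the vector field -/

/-- the common form of the two components of the vector field -/
def fld (s : ℝ) (u v φ A B C K : ℂ → ℝ) (z : ℂ) : ℝ :=
  -((u z ^ 2 + v z ^ 2) * Real.exp (-φ z) * A z) +
    s * Real.exp (-φ z) * (u z * B z - v z * C z) + K z

theorem fld_deriv (s : ℝ) {u v φ A B C K : ℂ → ℝ} {z : ℂ} (e : ℂ) (hu : DifferentiableAt ℝ u z)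
    (hv : DifferentiableAt ℝ v z) (hφ : DifferentiableAt ℝ φ z) (hA : DifferentiableAt ℝ A z)
    (hB : DifferentiableAt ℝ B z) (hC : DifferentiableAt ℝ C z) (hK : DifferentiableAt ℝ K z) :
    fderiv ℝ (fld s u v φ A B C K) z e =
      -((2 * (u z * fderiv ℝ u z e + v z * fderiv ℝ v z e) -
          (u z ^ 2 + v z ^ 2) * fderiv ℝ φ z e) * Real.exp (-φ z) * A z) -
        (u z ^ 2 + v z ^ 2) * Real.exp (-φ z) * fderiv ℝ A z e +
        s * Real.exp (-φ z) * (-(fderiv ℝ φ z e) * (u z * B z - v z * C z) +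
          (fderiv ℝ u z e * B z + u z * fderiv ℝ B z e - fderiv ℝ v z e * C z -
            v z * fderiv ℝ C z e)) + fderiv ℝ K z e := by
  have h1 := hu.hasFDerivAt
  have h2 := hv.hasFDerivAt
  have h3 := hφ.hasFDerivAt
  have h4 := hA.hasFDerivAt
  have h5 := hB.hasFDerivAt
  have h6 := hC.hasFDerivAt
  have h7 := hK.hasFDerivAt
  have hE := h3.neg.exp
  have h := ((((((h1.pow 2).add (h2.pow 2)).mul hE).mul h4).neg).add
    ((hE.const_mul s).mul ((h1.mul h5).sub (h2.mul h6)))).add h7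
  have h8 : HasFDerivAt (fld s u v φ A B C K) _ z := h
  rw [h8.fderiv]
  simp only [add_apply, neg_apply, smul_apply, sub_apply, smul_eq_mul, Pi.add_apply,
    Pi.mul_apply]
  simp
  ring

theorem fld_contDiff (s : ℝ) {u v φ A B C K : ℂ → ℝ} (hu : ContDiff ℝ 1 u) (hv : ContDiff ℝ 1 v)
    (hφ : ContDiff ℝ 1 φ) (hA : ContDiff ℝ 1 A) (hB : ContDiff ℝ 1 B) (hC : ContDiff ℝ 1 C)
    (hK : ContDiff ℝ 1 K) : ContDiff ℝ 1 (fld s u v φ A B C K) := by
  unfold fld
  fun_prop

theorem re_fd {w : ℂ → ℂ} {z : ℂ} (hw : DifferentiableAt ℝ w z) (e : ℂ) :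
    fderiv ℝ (fun z => (w z).re) z e = (fderiv ℝ w z e).re := by
  have h := (Complex.reCLM.hasFDerivAt.comp z hw.hasFDerivAt).fderiv
  have h2 : fderiv ℝ (fun z => (w z).re) z = Complex.reCLM.comp (fderiv ℝ w z) := h
  rw [h2]
  rfl

theorem im_fd {w : ℂ → ℂ} {z : ℂ} (hw : DifferentiableAt ℝ w z) (e : ℂ) :
    fderiv ℝ (fun z => (w z).im) z e = (fderiv ℝ w z e).im := by
  have h := (Complex.imCLM.hasFDerivAt.comp z hw.hasFDerivAt).fderiv
  have h2 : fderiv ℝ (fun z => (w z).im) z = Complex.imCLM.comp (fderiv ℝ w z) := h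
  rw [h2]
  rfl

/-! ### integrals -/

theorem cp_continuous : Continuous cp := by
  unfold cp
  fun_prop

theorem dI_int {f : ℂ → ℝ} (hf : Continuous f) :
    IntegrableOn f (Metric.closedBall (0 : ℂ) 1) :=
  hf.continuousOn.integrableOn_compact (isCompact_closedBall 0 1)

theorem dI_add {f g : ℂ → ℝ} (hf : Continuous f) (hg : Continuous g) :
    dI (fun z => f z + g z) = dI f + dI g := by
  unfold dI
  exact integral_add (dI_int hf) (dI_int hg)

theorem dI_mul (c : ℝ) (f : ℂ → ℝ) : dI (fun z => c * f z) = c * dI f := by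
  unfold dI
  exact integral_const_mul c _

theorem dI_mono {f g : ℂ → ℝ} (hf : Continuous f) (hg : Continuous g) (h : ∀ z, f z ≤ g z) :
    dI f ≤ dI g := by
  unfold dI
  exact setIntegral_mono (dI_int hf) (dI_int hg) h

theorem cI_int {f : ℂ → ℝ} (hf : Continuous f) :
    IntervalIntegrable (fun θ => f (cp θ)) volume 0 (2 * Real.pi) :=
  (hf.comp cp_continuous).intervalIntegrable _ _

theorem cI_add {f g : ℂ → ℝ} (hf : Continuous f) (hg : Continuous g) :
    cI (fun z => f z + g z) = cI f + cI g := by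
  unfold cI
  exact intervalIntegral.integral_add (cI_int hf) (cI_int hg)

theorem cI_mul (c : ℝ) (f : ℂ → ℝ) : cI (fun z => c * f z) = c * cI f := by
  unfold cI
  exact intervalIntegral.integral_const_mul c _

/-! ### the key inequality -/

theorem key (hgrn : GrnStmt) (hpwi : PwiStmt) : KeyStmt := by
  intro n φ F w hn hφ hF hw
  have hw1 : ∀ z, DifferentiableAt ℝ w z := fun z => (hw.differentiable (by norm_num)) z
  obtain ⟨u, hu⟩ : ∃ u : ℂ → ℝ, u = fun z => (w z).re := ⟨_, rfl⟩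
  obtain ⟨v, hv⟩ : ∃ v : ℂ → ℝ, v = fun z => (w z).im := ⟨_, rfl⟩
  have hu2 : ContDiff ℝ 2 u := by rw [hu]; exact Complex.reCLM.contDiff.comp hw
  have hv2 : ContDiff ℝ 2 v := by rw [hv]; exact Complex.imCLM.contDiff.comp hw
  have hux : ∀ z, (dx w z).re = dx u z := fun z => by
    rw [hu]; exact (re_fd (hw1 z) 1).symm
  have huy : ∀ z, (dy w z).re = dy u z := fun z => by
    rw [hu]; exact (re_fd (hw1 z) Complex.I).symm
  have hvx : ∀ z, (dx w z).im = dx v z := fun z => by
    rw [hv]; exact (im_fd (hw1 z) 1).symm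
  have hvy : ∀ z, (dy w z).im = dy v z := fun z => by
    rw [hv]; exact (im_fd (hw1 z) Complex.I).symm
  have hu1 : ContDiff ℝ 1 u := hu2.of_le (by norm_num)
  have hv1 : ContDiff ℝ 1 v := hv2.of_le (by norm_num)
  have hφ1 : ContDiff ℝ 1 φ := hφ.of_le (by norm_num)
  have hF1 : ContDiff ℝ 1 F := hF.of_le (by norm_num)
  have dd : ∀ {f : ℂ → ℝ}, ContDiff ℝ 1 f → ∀ z, DifferentiableAt ℝ f z :=
    fun hf z => (hf.differentiable (by norm_num)) z
  obtain ⟨V1, hV1⟩ : ∃ V1 : ℂ → ℝ, V1 = fld 2 u v φ (fun z => dx φ z + dx F z) (dy v) (dy u)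
    (fun z => (n - 1) * (u z ^ 2 - v z ^ 2)) := ⟨_, rfl⟩
  obtain ⟨V2, hV2⟩ : ∃ V2 : ℂ → ℝ, V2 = fld (-2) u v φ (fun z => dy φ z + dy F z) (dx v) (dx u)
    (fun z => -(2 * (n - 1) * (u z * v z))) := ⟨_, rfl⟩
  have hV1c : ContDiff ℝ 1 V1 := by
    rw [hV1]
    refine fld_contDiff 2 hu1 hv1 hφ1 ((cd_dx hφ).add (cd_dx hF)) (cd_dy hv2) (cd_dy hu2) ?_
    fun_prop
  have hV2c : ContDiff ℝ 1 V2 := by
    rw [hV2]
    refine fld_contDiff (-2) hu1 hv1 hφ1 ((cd_dy hφ).add (cd_dy hF)) (cd_dx hv2) (cd_dx hu2) ?_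
    fun_prop
  have hd1 : ∀ z, dx V1 z =
      -((2 * (u z * dx u z + v z * dx v z) -
          (u z ^ 2 + v z ^ 2) * dx φ z) * Real.exp (-φ z) * (dx φ z + dx F z)) -
        (u z ^ 2 + v z ^ 2) * Real.exp (-φ z) * (dx (dx φ) z + dx (dx F) z) +
        2 * Real.exp (-φ z) * (-(dx φ z) * (u z * dy v z - v z * dy u z) +
          (dx u z * dy v z + u z * dx (dy v) z - dx v z * dy u z -
            v z * dx (dy u) z)) + (n - 1) * (2 * u z * dx u z - 2 * v z * dx v z) := by
    intro z
    rw [hV1]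
    have e1 := fld_deriv 2 (u := u) (v := v) (φ := φ) (A := fun z => dx φ z + dx F z) (B := dy v)
      (C := dy u) (K := fun z => (n - 1) * (u z ^ 2 - v z ^ 2)) (z := z) 1 (dd hu1 z) (dd hv1 z)
      (dd hφ1 z) ((dd (cd_dx hφ) z).add (dd (cd_dx hF) z)) (dd (cd_dy hv2) z) (dd (cd_dy hu2) z)
      (by have := dd hu1 z; have := dd hv1 z; fun_prop)
    have e2 : fderiv ℝ (fun z => dx φ z + dx F z) z 1 = dx (dx φ) z + dx (dx F) z := by
      rw [fderiv_fun_add (dd (cd_dx hφ) z) (dd (cd_dx hF) z)]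
      rfl
    have e3 : fderiv ℝ (fun z => (n - 1) * (u z ^ 2 - v z ^ 2)) z 1 =
        (n - 1) * (2 * u z * dx u z - 2 * v z * dx v z) := by
      have h1 := (dd hu1 z).hasFDerivAt
      have h2 := (dd hv1 z).hasFDerivAt
      have h := (((h1.pow 2).sub (h2.pow 2)).const_mul (n - 1))
      have h8 : HasFDerivAt (fun z => (n - 1) * (u z ^ 2 - v z ^ 2)) _ z := h
      rw [h8.fderiv]
      simp [dx]
    rw [e2, e3] at e1
    exact e1
  have hd2 : ∀ z, dy V2 z =
      -((2 * (u z * dy u z + v z * dy v z) -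
          (u z ^ 2 + v z ^ 2) * dy φ z) * Real.exp (-φ z) * (dy φ z + dy F z)) -
        (u z ^ 2 + v z ^ 2) * Real.exp (-φ z) * (dy (dy φ) z + dy (dy F) z) +
        (-2) * Real.exp (-φ z) * (-(dy φ z) * (u z * dx v z - v z * dx u z) +
          (dy u z * dx v z + u z * dy (dx v) z - dy v z * dx u z -
            v z * dy (dx u) z)) + -(2 * (n - 1) * (dy u z * v z + u z * dy v z)) := by
    intro z
    rw [hV2]
    have e1 := fld_deriv (-2) (u := u) (v := v) (φ := φ) (A := fun z => dy φ z + dy F z)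
      (B := dx v) (C := dx u) (K := fun z => -(2 * (n - 1) * (u z * v z))) (z := z) Complex.I
      (dd hu1 z) (dd hv1 z)
      (dd hφ1 z) ((dd (cd_dy hφ) z).add (dd (cd_dy hF) z)) (dd (cd_dx hv2) z) (dd (cd_dx hu2) z)
      (by have := dd hu1 z; have := dd hv1 z; fun_prop)
    have e2 : fderiv ℝ (fun z => dy φ z + dy F z) z Complex.I = dy (dy φ) z + dy (dy F) z := by
      rw [fderiv_fun_add (dd (cd_dy hφ) z) (dd (cd_dy hF) z)]
      rfl
    have e3 : fderiv ℝ (fun z => -(2 * (n - 1) * (u z * v z))) z Complex.I =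
        -(2 * (n - 1) * (dy u z * v z + u z * dy v z)) := by
      have h1 := (dd hu1 z).hasFDerivAt
      have h2 := (dd hv1 z).hasFDerivAt
      have h := (((h1.mul h2).const_mul (2 * (n - 1))).neg)
      have h8 : HasFDerivAt (fun z => -(2 * (n - 1) * (u z * v z))) _ z := h
      rw [h8.fderiv]
      simp [dy]
      ring
    rw [e2, e3] at e1
    exact e1
  have hnorm : ∀ z, Complex.normSq (w z) = u z ^ 2 + v z ^ 2 := by
    intro z
    rw [hu, hv, Complex.normSq_apply]
    ring
  obtain ⟨P, hP⟩ : ∃ P : ℂ → ℝ, P = fun z => Complex.normSq (w z) * Real.exp (-φ z) *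
      (-lap φ z - lap F z - (n - 1) / (2 * (n - 2)) * grad2 F z
        + n * (n - 1) / 2 * Real.exp (2 * φ z)) := ⟨_, rfl⟩
  obtain ⟨Q, hQ⟩ : ∃ Q : ℂ → ℝ, Q = fun z => Real.exp (-φ z) *
      Complex.normSq (dzb w z - (n / 4 * Real.exp (φ z) : ℝ) * conj (w z)) := ⟨_, rfl⟩
  have hQ2 : Q = fun z => Real.exp (-φ z) *
      (((dx u z - dy v z - n / 2 * Real.exp (φ z) * u z) ^ 2 +
        (dx v z + dy u z + n / 2 * Real.exp (φ z) * v z) ^ 2) / 4) := by
    rw [hQ]
    funext z
    congr 1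
    obtain ⟨r, hr⟩ : ∃ r : ℝ, n / 4 * Real.exp (φ z) = r := ⟨_, rfl⟩
    have hr2 : n / 2 * Real.exp (φ z) = 2 * r := by rw [← hr]; ring
    rw [hr, hr2]
    have e1 : (dzb w z - (r : ℂ) * conj (w z)).re = (dx u z - dy v z - 2 * r * u z) / 2 := by
      rw [← hux, ← hvy, hu]
      simp [dzb]
      ring
    have e2 : (dzb w z - (r : ℂ) * conj (w z)).im = (dx v z + dy u z + 2 * r * v z) / 2 := by
      rw [← hvx, ← huy, hv]
      simp [dzb]
      ring
    rw [Complex.normSq_apply, e1, e2]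
    ring
  have hlap : ∀ {f : ℂ → ℝ}, ContDiff ℝ 2 f → Continuous (lap f) := by
    intro f hf
    unfold lap
    exact (ct_dx (cd_dx hf)).add (ct_dy (cd_dy hf))
  have hgr : Continuous (grad2 F) := by
    unfold grad2
    exact ((ct_dx hF1).pow 2).add ((ct_dy hF1).pow 2)
  have hPc : Continuous P := by
    rw [hP]
    have := hlap hφ
    have := hlap hF
    have := hφ.continuous
    have := hw.continuous
    have := Complex.continuous_normSq
    fun_prop
  have cux := ct_dx hu1
  have cuy := ct_dy hu1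
  have cvx := ct_dx hv1
  have cvy := ct_dy hv1
  have cu := hu1.continuous
  have cv := hv1.continuous
  have cφ := hφ1.continuous
  have hQc : Continuous Q := by
    rw [hQ2]
    fun_prop
  have hpt : ∀ z, P z ≤ (dx V1 z + dy V2 z) + 8 * (n - 1) / n * Q z := by
    intro z
    have h1 := hpwi n (u z) (v z) (dx u z) (dy u z) (dx v z) (dy v z) (dx φ z) (dy φ z) (dx F z)
      (dy F z) (lap φ z) (lap F z) (Real.exp (-φ z)) (Real.exp (φ z)) hn (Real.exp_pos _)
      (by rw [← Real.exp_add]; simp)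
    have h2 : Real.exp (2 * φ z) = Real.exp (φ z) ^ 2 := by
      rw [← Real.exp_nat_mul]; norm_num
    have h3 : P z = (u z ^ 2 + v z ^ 2) * Real.exp (-φ z) *
        (-lap φ z - lap F z - (n - 1) / (2 * (n - 2)) * (dx F z ^ 2 + dy F z ^ 2)
          + n * (n - 1) / 2 * Real.exp (φ z) ^ 2) := by
      rw [hP]
      show Complex.normSq (w z) * Real.exp (-φ z) * _ = _
      rw [hnorm, h2]
      rfl
    rw [h3]
    refine h1.trans (le_of_eq ?_)
    rw [hd1, hd2, hQ2, mixed hv2 z, mixed hu2 z]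
    unfold lap
    have hn0 : n ≠ 0 := by linarith
    field_simp
    ring
  have hint : dI P ≤ dI (dx V1) + dI (dy V2) + 8 * (n - 1) / n * dI Q := by
    have h1 : dI P ≤ dI (fun z => (dx V1 z + dy V2 z) + 8 * (n - 1) / n * Q z) := by
      refine dI_mono hPc ?_ hpt
      have := ct_dx hV1c
      have := ct_dy hV2c
      fun_prop
    have h2 : Continuous (fun z => dx V1 z + dy V2 z) := (ct_dx hV1c).add (ct_dy hV2c)
    have h3 : Continuous (fun z => 8 * (n - 1) / n * Q z) := continuous_const.mul hQc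
    rw [dI_add h2 h3, dI_mul, dI_add (ct_dx hV1c) (ct_dy hV2c)] at h1
    exact h1
  rw [(hgrn V1 hV1c).1, (hgrn V2 hV2c).2] at hint
  -- the circle
  have cc1 : Continuous (fun z : ℂ => z.re * V1 z) := Complex.continuous_re.mul hV1c.continuous
  have cc2 : Continuous (fun z : ℂ => z.im * V2 z) := Complex.continuous_im.mul hV2c.continuous
  have crf : ∀ {f : ℂ → ℝ}, ContDiff ℝ 1 f → Continuous (rad f) := by
    intro f hf
    have := ct_dx hf
    have := ct_dy hf
    unfold rad
    exact (Complex.continuous_re.smul (ct_dx hf)).add (Complex.continuous_im.smul (ct_dy hf))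
  have cc3 : Continuous (fun z => Complex.normSq (w z) * Real.exp (-φ z) *
      (1 + rad φ z + rad F z)) := by
    have := crf hφ1
    have := crf hF1
    have := hw.continuous
    have := Complex.continuous_normSq
    fun_prop
  have cc4 : Continuous (fun z => Complex.normSq (w z) * Real.exp (-φ z)) := by
    have := hw.continuous
    have := Complex.continuous_normSq
    fun_prop
  have cc5 : Continuous (fun z => (w z ^ 2 * z).re) := by
    have := hw.continuous
    fun_prop
  have cc6 : Continuous (fun z => Real.exp (-φ z) * (conj (w z) * ang w z).im) := by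
    have h1 : (fun z => Real.exp (-φ z) * (conj (w z) * ang w z).im) =
        fun z => Real.exp (-φ z) * (u z * (z.re * dy v z - z.im * dx v z) -
          v z * (z.re * dy u z - z.im * dx u z)) := by
      funext z
      rw [← hux, ← hvy, ← hvx, ← huy, hu, hv]
      simp [ang]
      ring
    rw [h1]
    fun_prop
  have hcirc : cI (fun z => z.re * V1 z) + cI (fun z => z.im * V2 z) +
      cI (fun z => Complex.normSq (w z) * Real.exp (-φ z) * (1 + rad φ z + rad F z)) =
      (n - 1) * cI (fun z => (w z ^ 2 * z).re)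
        + 2 * cI (fun z => Real.exp (-φ z) * (conj (w z) * ang w z).im)
        + cI (fun z => Complex.normSq (w z) * Real.exp (-φ z)) := by
    have c12 : Continuous (fun z => z.re * V1 z + z.im * V2 z) := cc1.add cc2
    have c5 : Continuous (fun z => (n - 1) * (w z ^ 2 * z).re) := continuous_const.mul cc5
    have c6 : Continuous (fun z => 2 * (Real.exp (-φ z) * (conj (w z) * ang w z).im)) :=
      continuous_const.mul cc6
    have c56 : Continuous (fun z => (n - 1) * (w z ^ 2 * z).re +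
        2 * (Real.exp (-φ z) * (conj (w z) * ang w z).im)) := c5.add c6
    rw [← cI_mul, ← cI_mul, ← cI_add cc1 cc2, ← cI_add c12 cc3,
      ← cI_add c5 c6, ← cI_add c56 cc4]
    congr 1
    funext z
    rw [hnorm, hV1, hV2]
    have e1 : (w z ^ 2 * z).re = (u z ^ 2 - v z ^ 2) * z.re - 2 * u z * v z * z.im := by
      rw [hu, hv]
      simp only [pow_two, Complex.mul_re, Complex.mul_im]
      ring
    have e2 : (conj (w z) * ang w z).im = u z * (z.re * dy v z - z.im * dx v z) -
          v z * (z.re * dy u z - z.im * dx u z) := by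
      rw [← hux, ← hvy, ← hvx, ← huy, hu, hv]
      simp [ang]
      ring
    rw [e1, e2]
    simp only [fld, rad, smul_eq_mul]
    ring
  have hPI : dI (fun z => Complex.normSq (w z) * Real.exp (-φ z) * (-lap φ z - lap F z
      - (n - 1) / (2 * (n - 2)) * grad2 F z + n * (n - 1) / 2 * Real.exp (2 * φ z))) = dI P := by
    rw [hP]
  have hQI : dI (fun z => Real.exp (-φ z) *
      Complex.normSq (dzb w z - (n / 4 * Real.exp (φ z) : ℝ) * conj (w z))) = dI Q := by
    rw [hQ]
  rw [hPI, hQI]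
  linarith

end Pool.Agent.BCS.H88
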